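import Pool.Agent.H516_Hankel.Stmt

set_option autoImplicit false

/-!
# Hilbert-Schmidt Hankel operators on bounded Reinhardt domains (MP_dc9318_an)

Let `n ≥ 2`, let `Ω` be a bounded Reinhardt domain in `ℂ^n` and let `f` be holomorphic on `Ω`. If
the (densely defined) Hankel operator `H g = (I - P) (conj f * g)` extends to a Hilbert-Schmidt
operator `T : A²(Ω) → L²(Ω)`, then `T = 0` and `f` is constant. So the answer to the question is no.

Idea: let `f_α ≠ 0` be a Laurent coefficient of `f` with `α ≠ 0` and put `x = |z^α|²`. Testing `T` on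
`z^γ` against the functions `(x - c) z^(γ-α)` cut off to invariant sets, one finds that `z^(γ+α)` is
again in `A²(Ω)` and that
`|f_α|² (r(γ+α) - r(γ)) ≤ ‖T z^γ‖² / ‖z^γ‖²`, with `r(γ) = ‖z^γ‖² / ‖z^(γ-α)‖²` if `z^(γ-α)` is in
`A²(Ω)` and `r(γ) = 0` otherwise. Along every chain `γ + ℤ α` the numbers `r` go from (at most)
`inf x` to `sup x`, so that each chain contributes at least `|f_α|² (sup x - inf x) > 0` to the
Hilbert-Schmidt norm of `T`; as `n ≥ 2` there are infinitely many chains.
-/

open Pool.Agent.H516H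

namespace Pool.Agent.Results.MP_dc9318_an.NoHilbertSchmidt

/-- **Answer to Q1: no.** On a bounded Reinhardt domain in `ℂ^n`, `n ≥ 2`, a Hilbert-Schmidt Hankel
operator with conjugate holomorphic symbol `conj f` is zero (and `f` is constant). -/
theorem result : ∀ n : ℕ, 2 ≤ n → ∀ (Ω : BddReinhardtDomain n) (f : (Fin n → ℂ) → ℂ),
    DifferentiableOn ℂ f Ω.carrier → ∀ T : Op Ω, IsHSExtension Ω f T →
      (∀ g, ev Ω T g = 0) ∧ ∃ c : ℂ, ∀ z ∈ Ω.carrier, f z = c :=
  fun _ hn Ω f hf T hT => main Ω hn f hf T hT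

end Pool.Agent.Results.MP_dc9318_an.NoHilbertSchmidt
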